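import Pool.Agent.Q67.CY.Main

/-!
# MP_c1c973_an, Q1: all orbits dense or discrete

There is a continuous function `φ` on the 3-adic integers such that the cylindrical transformation
over the odometer `x ↦ x + 1` is Besicovitch and every orbit is dense or discrete.
-/

namespace Pool.Agent.Results.MP_c1c973_an.DenseOrDiscrete

open Q67.CY

/-- Q1 has a positive answer, with `X = ℤ_[3]` and `T x = x + 1`. -/
theorem result : ∃ φ : ℤ_[3] → ℝ, IsExample ℤ_[3] 1 φ := ⟨φ, main⟩

end Pool.Agent.Results.MP_c1c973_an.DenseOrDiscrete
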